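import Pool.Agent.helper62.FSQ.SpecQ

set_option autoImplicit false

open MeasureTheory Set

namespace Pool.Agent.FS

theorem CNTQ_proof : CNTQ_stmt := by
  intro S x k hx0 hx1
  have h1 : (((S.powerset.filter fun A : Finset ℕ => (A.card : ℝ) ≤ k).card : ℕ) : ℝ) * x ^ k = ∑ A ∈ S.powerset.filter (fun A : Finset ℕ => (A.card : ℝ) ≤ k), x ^ k := by
    rw [Finset.sum_const, nsmul_eq_mul]
  rw [h1]
  have h2 : ∑ A ∈ S.powerset.filter (fun A : Finset ℕ => (A.card : ℝ) ≤ k), x ^ k ≤ ∑ A ∈ S.powerset.filter (fun A : Finset ℕ => (A.card : ℝ) ≤ k), x ^ A.card := by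
    refine Finset.sum_le_sum fun A hA => ?_
    rw [← Real.rpow_natCast x A.card]
    exact Real.rpow_le_rpow_of_exponent_ge hx0 hx1 (Finset.mem_filter.1 hA).2
  have h3 : ∑ A ∈ S.powerset.filter (fun A : Finset ℕ => (A.card : ℝ) ≤ k), x ^ A.card ≤ ∑ A ∈ S.powerset, x ^ A.card :=
    Finset.sum_le_sum_of_subset_of_nonneg (Finset.filter_subset _ _) fun A _ _ => by positivity
  have h4 : ∑ A ∈ S.powerset, x ^ A.card = (1 + x) ^ S.card := by
    have := Finset.prod_one_add (R := ℝ) (f := fun _ : ℕ => x) S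
    simp only [Finset.prod_const] at this
    exact this.symm
  linarith

end Pool.Agent.FS
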