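import Pool.Agent.helper62.FSQ.SpecQ

set_option autoImplicit false

open MeasureTheory Set

namespace Pool.Agent.FS

lemma FUQ_gapj (c : ℝ) (M M1 M2 : ℕ) (J J' : Set ℤ) (h : M2 ≤ M1) (hJ : J' ⊆ J) (hg : GAPJ c M M1 J) : GAPJ c M M2 J' := by
  intro R h1 h2 ξ
  obtain ⟨y, hy, hj⟩ := hg R h1 (h2.trans (by exact_mod_cast h)) ξ
  exact ⟨y, hy, fun j hj' => hj j (hJ hj')⟩

lemma FUQ_gap (c : ℝ) (M : ℕ) (Y Y' : Set ℝ) (hY : Y' ⊆ Y) (hg : GAP c M Y) : GAP c M Y' := by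
  intro v
  obtain ⟨x, hx, hd⟩ := hg v
  exact ⟨x, hx, hd.mono_right hY⟩

/-- gaps at the consecutive ranges give gaps at the long range -/
lemma FUQ_long (c : ℝ) (H t w : ℕ) (J : Set ℤ) (hH : 2 ≤ H) (hw : 1 ≤ w) (h : ∀ i < w, GAPJ c (H ^ (t + i)) (H ^ (t + i + 1)) J) : GAPJ c (H ^ t) (H ^ (t + w)) J := by
  induction w with
  | zero => omega
  | succ w ih =>
    rcases Nat.eq_zero_or_pos w with hw0 | hw0
    · subst hw0
      exact h 0 (by omega)
    · intro R h1 h2 ξ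
      by_cases h3 : R ≤ ((H ^ (t + w) : ℕ) : ℝ)
      · exact ih hw0 (fun i hi => h i (by omega)) R h1 h3 ξ
      · exact h w (by omega) R (le_of_lt (not_le.1 h3)) h2 ξ

lemma FUQ_cnt (t0 T w : ℕ) (A B : Finset ℕ) :
    T ≤ ((Finset.Ico t0 (t0 + T)).filter (fun t => t ∉ A ∧ t + w ≤ t0 + T ∧ ∀ i < w, t + i ∉ B)).card + A.card + w + w * B.card := by
  classical
  set TT := (Finset.Ico t0 (t0 + T)).filter (fun t => t ∉ A ∧ t + w ≤ t0 + T ∧ ∀ i < w, t + i ∉ B) with hTT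
  set L := (Finset.range w).image (fun i => t0 + T - 1 - i) with hL
  set D := (Finset.range w).biUnion (fun i => B.image (fun b => b - i)) with hD
  have h1 : Finset.Ico t0 (t0 + T) ⊆ ((TT ∪ A) ∪ L) ∪ D := by
    intro t ht
    have ht' := Finset.mem_Ico.1 ht
    by_cases hA : t ∈ A
    · exact Finset.mem_union_left _ (Finset.mem_union_left _ (Finset.mem_union_right _ hA))
    by_cases hB : t + w ≤ t0 + T
    · by_cases hC : ∀ i < w, t + i ∉ B
      · exact Finset.mem_union_left _ (Finset.mem_union_left _ (Finset.mem_union_left _ (Finset.mem_filter.2 ⟨ht, hA, hB, hC⟩)))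
      · push Not at hC
        obtain ⟨i, hi, hb⟩ := hC
        exact Finset.mem_union_right _ (Finset.mem_biUnion.2 ⟨i, Finset.mem_range.2 hi, Finset.mem_image.2 ⟨t + i, hb, by omega⟩⟩)
    · exact Finset.mem_union_left _ (Finset.mem_union_right _ (Finset.mem_image.2 ⟨t0 + T - 1 - t, Finset.mem_range.2 (by omega), by omega⟩))
  have h2 := Finset.card_le_card h1
  rw [Nat.card_Ico] at h2
  have h3 : L.card ≤ w := Finset.card_image_le.trans (by simp)
  have h4 : D.card ≤ w * B.card := by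
    refine (Finset.card_biUnion_le).trans ?_
    refine (Finset.sum_le_sum fun i _ => Finset.card_image_le).trans ?_
    simp
  have h5 : (((TT ∪ A) ∪ L) ∪ D).card ≤ TT.card + A.card + L.card + D.card := by
    refine (Finset.card_union_le _ _).trans ?_
    have := Finset.card_union_le (TT ∪ A) L
    have := Finset.card_union_le TT A
    omega
  omega

lemma FUQ_tp (𝒜 : Finset (Finset ℕ)) (J : Finset ℤ) (a : ℤ → ℂ) (Bf : ℤ → Finset ℕ) (hB : ∀ j ∈ J, Bf j ∈ 𝒜) (v : ℝ) :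
    ‖tp J a v‖ ^ 2 ≤ 𝒜.card * ∑ B ∈ 𝒜, ‖tp (J.filter (fun j => Bf j = B)) a v‖ ^ 2 := by
  classical
  have h1 : tp J a v = ∑ B ∈ 𝒜, tp (J.filter (fun j => Bf j = B)) a v := by
    unfold tp
    exact (Finset.sum_fiberwise_of_maps_to hB _).symm
  rw [h1]
  have h2 : ‖∑ B ∈ 𝒜, tp (J.filter (fun j => Bf j = B)) a v‖ ≤ ∑ B ∈ 𝒜, ‖tp (J.filter (fun j => Bf j = B)) a v‖ := norm_sum_le _ _
  have h3 := sq_sum_le_card_mul_sum_sq (s := 𝒜) (f := fun B => ‖tp (J.filter (fun j => Bf j = B)) a v‖)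
  have h4 : ‖∑ B ∈ 𝒜, tp (J.filter (fun j => Bf j = B)) a v‖ ^ 2 ≤ (∑ B ∈ 𝒜, ‖tp (J.filter (fun j => Bf j = B)) a v‖) ^ 2 :=
    pow_le_pow_left₀ (norm_nonneg _) h2 2
  linarith

lemma FUQ_cont (J : Finset ℤ) (a : ℤ → ℂ) : Continuous (fun v : ℝ => ‖tp J a v‖ ^ 2) := by
  unfold tp ee
  fun_prop

theorem FUQ_proof (h1 : FITQ_stmt) (h2 : CNTQ_stmt) : FUQ_stmt := by
  classical
  intro c hc0 hc1
  obtain ⟨θ, H, w0, hθ0, hθ1, hH, hF⟩ := h1 c hc0 hc1
  obtain ⟨w, hw⟩ : ∃ w : ℕ, w = max w0 1 := ⟨_, rfl⟩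
  have hw0 : w0 ≤ w := by rw [hw]; exact le_max_left _ _
  have hw1 : 1 ≤ w := by rw [hw]; exact le_max_right _ _
  have hH1 : 1 ≤ H := by omega
  obtain ⟨L, hL⟩ : ∃ L : ℝ, L = -Real.log θ := ⟨_, rfl⟩
  have hL0 : 0 < L := by rw [hL]; exact neg_pos.2 (Real.log_neg hθ0 hθ1)
  have hθL : θ = Real.exp (-L) := by rw [hL, neg_neg, Real.exp_log hθ0]
  obtain ⟨x, hx⟩ : ∃ x : ℝ, x = min 1 (L / 16) := ⟨_, rfl⟩
  have hx0 : 0 < x := by rw [hx]; exact lt_min one_pos (by positivity)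
  have hx1 : x ≤ 1 := by rw [hx]; exact min_le_left _ _
  have hxL : 1 + x ≤ Real.exp (L / 16) := by
    have h3 : x ≤ L / 16 := by rw [hx]; exact min_le_right _ _
    have := Real.add_one_le_exp (L / 16)
    linarith
  obtain ⟨Lx, hLx⟩ : ∃ Lx : ℝ, Lx = -Real.log x := ⟨_, rfl⟩
  have hLx0 : 0 ≤ Lx := by rw [hLx]; exact neg_nonneg.2 (Real.log_nonpos hx0.le hx1)
  have hwr : (1 : ℝ) ≤ w := by exact_mod_cast hw1
  obtain ⟨ε, hε⟩ : ∃ ε : ℝ, ε = min (1 / (8 * ((w : ℝ) + 1))) (L / (16 * (Lx + 1))) := ⟨_, rfl⟩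
  have hε0 : 0 < ε := by rw [hε]; exact lt_min (by positivity) (by positivity)
  have hεw : ε * ((w : ℝ) + 1) ≤ 1 / 8 := by
    have h3 : ε ≤ 1 / (8 * ((w : ℝ) + 1)) := by rw [hε]; exact min_le_left _ _
    have h4 := mul_le_mul_of_nonneg_right h3 (by positivity : (0 : ℝ) ≤ (w : ℝ) + 1)
    refine h4.trans (le_of_eq ?_)
    field_simp
  have hεL : ε * Lx ≤ L / 16 := by
    have h3 : ε ≤ L / (16 * (Lx + 1)) := by rw [hε]; exact min_le_right _ _
    have h4 := mul_le_mul_of_nonneg_right h3 (by positivity : (0 : ℝ) ≤ Lx + 1)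
    have h5 : L / (16 * (Lx + 1)) * (Lx + 1) = L / 16 := by field_simp
    nlinarith
  refine ⟨ε, Real.exp (-(L / 4)), 4 * Real.exp (L * w), H, hε0, Real.exp_pos _, (by have h9 := Real.exp_lt_exp.2 (show -(L / 4) < 0 by linarith); rwa [Real.exp_zero] at h9), ?_, hH, ?_⟩
  · have := Real.one_le_exp (by positivity : 0 ≤ L * w)
    linarith
  intro t0 T Y Yg J Jg a hY hYg hgY hgJ hvY hjJ
  set S := Finset.Ico t0 (t0 + T) with hS
  have hSc : S.card = T := by rw [hS, Nat.card_Ico]; omega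
  set 𝒜 := S.powerset.filter (fun A : Finset ℕ => (A.card : ℝ) ≤ ε * T) with h𝒜
  have hmem : ∀ A : Finset ℕ, (A.card : ℝ) ≤ ε * T → A ∩ S ∈ 𝒜 := by
    intro A hA
    refine Finset.mem_filter.2 ⟨Finset.mem_powerset.2 Finset.inter_subset_right, ?_⟩
    have : ((A ∩ S).card : ℝ) ≤ A.card := by exact_mod_cast Finset.card_le_card Finset.inter_subset_left
    linarith
  have hBf : ∃ Bf : ℤ → Finset ℕ, ∀ j ∈ J, Bf j ∈ 𝒜 ∧ ∀ t ∈ S, t ∉ Bf j → j ∈ Jg t := by
    have : ∀ j : ℤ, ∃ B : Finset ℕ, j ∈ J → (B ∈ 𝒜 ∧ ∀ t ∈ S, t ∉ B → j ∈ Jg t) := by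
      intro j
      by_cases hj : j ∈ J
      · obtain ⟨A, hA, hA2⟩ := hjJ j hj
        refine ⟨A ∩ S, fun _ => ⟨hmem A hA, fun t ht htB => ?_⟩⟩
        have ht' := Finset.mem_Ico.1 ht
        exact hA2 t ht'.1 ht'.2 (fun h => htB (Finset.mem_inter.2 ⟨h, ht⟩))
      · exact ⟨∅, fun h => absurd h hj⟩
    choose Bf hBf using this
    exact ⟨Bf, fun j hj => hBf j hj⟩
  obtain ⟨Bf, hBf⟩ := hBf
  let YA : Finset ℕ → Set ℝ := fun A => {v | v ∈ Y ∧ ∀ t ∈ S, t ∉ A → v ∈ Yg t}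
  have hYAm : ∀ A, MeasurableSet (YA A) := by
    intro A
    have : YA A = Y ∩ ⋂ t ∈ S.filter (fun t => t ∉ A), Yg t := by
      ext v
      simp only [YA, mem_setOf_eq, mem_inter_iff, mem_iInter, Finset.mem_filter]
      constructor
      · rintro ⟨h1, h2⟩
        exact ⟨h1, fun t ht => h2 t ht.1 ht.2⟩
      · rintro ⟨h1, h2⟩
        exact ⟨h1, fun t ht htA => h2 t ⟨ht, htA⟩⟩
    rw [this]
    exact hY.inter (Finset.measurableSet_biInter _ fun t _ => hYg t)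
  have hcov : ∀ v ∈ Y, ∃ A ∈ 𝒜, v ∈ YA A := by
    intro v hv
    obtain ⟨A, hA, hA2⟩ := hvY v hv
    refine ⟨A ∩ S, hmem A hA, hv, fun t ht htB => ?_⟩
    have ht' := Finset.mem_Ico.1 ht
    exact hA2 t ht'.1 ht'.2 (fun h => htB (Finset.mem_inter.2 ⟨h, ht⟩))
  set N := (𝒜.card : ℝ) with hN
  have hN0 : 0 ≤ N := Nat.cast_nonneg _
  have hTr : (0 : ℝ) ≤ T := Nat.cast_nonneg _
  have hNle : N ≤ Real.exp (L / 8 * T) := by
    have h3 := h2 S x (ε * T) hx0 hx1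
    rw [hSc] at h3
    have h4 : (1 + x) ^ T ≤ Real.exp (L / 16 * T) := by
      have h5 : (1 + x) ^ T ≤ Real.exp (L / 16) ^ T := pow_le_pow_left₀ (by linarith) hxL T
      rw [← Real.exp_nat_mul] at h5
      refine h5.trans (le_of_eq ?_)
      ring_nf
    have h6 : x ^ (ε * T) = Real.exp (-(ε * Lx * T)) := by
      rw [Real.rpow_def_of_pos hx0, hLx]
      ring_nf
    have h7 : Real.exp (-(L / 16 * T)) ≤ x ^ (ε * T) := by
      rw [h6]
      apply Real.exp_le_exp.2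
      nlinarith
    have h8 : N * Real.exp (-(L / 16 * T)) ≤ Real.exp (L / 16 * T) :=
      (mul_le_mul_of_nonneg_left h7 hN0).trans (h3.trans h4)
    have h9 : N = N * Real.exp (-(L / 16 * T)) * Real.exp (L / 16 * T) := by
      rw [mul_assoc, ← Real.exp_add]
      simp
    rw [h9]
    refine (mul_le_mul_of_nonneg_right h8 (Real.exp_pos _).le).trans (le_of_eq ?_)
    rw [← Real.exp_add]
    ring_nf
  -- the local estimate
  have hloc : ∀ A ∈ 𝒜, ∀ B ∈ 𝒜, ∫ v in YA A ∩ Icc 0 1, ‖tp (J.filter (fun j => Bf j = B)) a v‖ ^ 2 ≤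
      4 * Real.exp (-(L * (T / 2 - w))) * ∑ j ∈ J.filter (fun j => Bf j = B), ‖a j‖ ^ 2 := by
    intro A hA B hB
    set TT := S.filter (fun t => t ∉ A ∧ t + w ≤ t0 + T ∧ ∀ i < w, t + i ∉ B) with hTT
    have hcard := FUQ_cnt t0 T w A B
    rw [← hS, ← hTT] at hcard
    have hAc : (A.card : ℝ) ≤ ε * T := (Finset.mem_filter.1 hA).2
    have hBc : (B.card : ℝ) ≤ ε * T := (Finset.mem_filter.1 hB).2
    have hcard' : (T : ℝ) ≤ TT.card + A.card + w + w * B.card := by exact_mod_cast hcard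
    have hTTc : (T : ℝ) / 2 - w ≤ TT.card := by
      have h3 : (w : ℝ) * B.card ≤ w * (ε * T) := mul_le_mul_of_nonneg_left hBc (by linarith)
      have h4 : ε * (w + 1) * T ≤ 1 / 8 * T := mul_le_mul_of_nonneg_right hεw hTr
      nlinarith
    have hF1 := hF TT (YA A) (J.filter (fun j => Bf j = B)) a (hYAm A) (by
      intro t ht
      have ht' := Finset.mem_filter.1 ht
      have ht2 := Finset.mem_Ico.1 ht'.1
      exact FUQ_gap c _ (Yg t) _ (fun v hv => hv.2 t ht'.1 ht'.2.1) (hgY t ht2.1 ht2.2)) (by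
      intro t ht
      have ht' := Finset.mem_filter.1 ht
      have ht2 := Finset.mem_Ico.1 ht'.1
      refine FUQ_gapj c _ _ _ _ _ (Nat.pow_le_pow_right hH1 (by omega : t + w0 ≤ t + w)) (subset_refl _) (FUQ_long c H t w _ hH hw1 ?_)
      intro i hi
      refine FUQ_gapj c _ _ _ _ _ le_rfl ?_ (hgJ (t + i) (by omega) (by omega))
      intro j hj
      have hj' := Finset.mem_filter.1 (Finset.mem_coe.1 hj)
      refine ⟨(hBf j hj'.1).2 (t + i) (Finset.mem_Ico.2 ⟨by omega, by omega⟩) ?_, Finset.mem_coe.2 hj'.1⟩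
      rw [hj'.2]
      exact ht'.2.2.2 i hi)
    refine hF1.trans ?_
    refine mul_le_mul_of_nonneg_right ?_ (Finset.sum_nonneg fun j _ => by positivity)
    refine mul_le_mul_of_nonneg_left ?_ (by norm_num)
    rw [hθL, ← Real.exp_nat_mul]
    apply Real.exp_le_exp.2
    nlinarith
  have hintI : ∀ (J' : Finset ℤ) (s : Set ℝ), IntegrableOn (fun v => ‖tp J' a v‖ ^ 2) (s ∩ Icc 0 1) := by
    intro J' s
    exact ((FUQ_cont J' a).continuousOn.integrableOn_compact isCompact_Icc).mono_set inter_subset_right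
  have hI : ∀ A ∈ 𝒜, ∫ v in YA A ∩ Icc 0 1, ‖tp J a v‖ ^ 2 ≤ N * (4 * Real.exp (-(L * (T / 2 - w))) * ∑ j ∈ J, ‖a j‖ ^ 2) := by
    intro A hA
    have h3 : ∫ v in YA A ∩ Icc 0 1, ‖tp J a v‖ ^ 2 ≤ ∫ v in YA A ∩ Icc 0 1, N * ∑ B ∈ 𝒜, ‖tp (J.filter (fun j => Bf j = B)) a v‖ ^ 2 := by
      refine integral_mono (hintI J _) ((integrable_finset_sum _ fun B _ => hintI _ _).const_mul _) ?_
      intro v
      exact FUQ_tp 𝒜 J a Bf (fun j hj => (hBf j hj).1) v
    refine h3.trans ?_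
    rw [integral_const_mul, integral_finset_sum _ fun B _ => hintI _ _]
    refine mul_le_mul_of_nonneg_left ?_ hN0
    refine (Finset.sum_le_sum fun B hB => hloc A hA B hB).trans (le_of_eq ?_)
    rw [← Finset.mul_sum]
    congr 1
    exact Finset.sum_fiberwise_of_maps_to (fun j hj => (hBf j hj).1) _
  -- the union
  have hU : ∫ v in Y ∩ Icc 0 1, ‖tp J a v‖ ^ 2 ≤ ∑ A ∈ 𝒜, ∫ v in YA A ∩ Icc 0 1, ‖tp J a v‖ ^ 2 := by
    have hrw : ∀ s : Set ℝ, MeasurableSet s → ∫ v in s ∩ Icc (0 : ℝ) 1, ‖tp J a v‖ ^ 2 = ∫ v in Icc (0 : ℝ) 1, s.indicator (fun v => ‖tp J a v‖ ^ 2) v := by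
      intro s hs
      rw [setIntegral_indicator hs, inter_comm]
    rw [hrw Y hY, Finset.sum_congr rfl fun A _ => hrw (YA A) (hYAm A)]
    have hII : IntegrableOn (fun v => ‖tp J a v‖ ^ 2) (Icc (0 : ℝ) 1) := (FUQ_cont J a).continuousOn.integrableOn_compact isCompact_Icc
    rw [← integral_finset_sum _ fun A _ => hII.indicator (hYAm A)]
    refine integral_mono (hII.indicator hY) (integrable_finset_sum _ fun A _ => hII.indicator (hYAm A)) ?_
    intro v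
    by_cases hv : v ∈ Y
    · obtain ⟨A, hA, hvA⟩ := hcov v hv
      simp only [indicator_of_mem hv]
      refine le_trans (le_of_eq ?_) (Finset.single_le_sum (f := fun A => (YA A).indicator (fun v => ‖tp J a v‖ ^ 2) v) (fun A _ => indicator_nonneg (fun _ _ => by positivity) _) hA)
      simp only [indicator_of_mem hvA]
    · simp only [indicator_of_notMem hv]
      exact Finset.sum_nonneg fun A _ => indicator_nonneg (fun _ _ => by positivity) _
  have hI2 := Finset.sum_le_sum hI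
  rw [Finset.sum_const, nsmul_eq_mul, ← hN] at hI2
  refine hU.trans (hI2.trans ?_)
  have hSg : 0 ≤ ∑ j ∈ J, ‖a j‖ ^ 2 := Finset.sum_nonneg fun j _ => by positivity
  have hfin : N * N * (4 * Real.exp (-(L * (T / 2 - w)))) ≤ 4 * Real.exp (L * w) * Real.exp (-(L / 4)) ^ T := by
    have h3 : N * N ≤ Real.exp (L / 8 * T) * Real.exp (L / 8 * T) := mul_le_mul hNle hNle hN0 (Real.exp_pos _).le
    refine (mul_le_mul_of_nonneg_right h3 (by positivity)).trans (le_of_eq ?_)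
    rw [← Real.exp_nat_mul, ← Real.exp_add]
    have e1 : Real.exp (L / 8 * T + L / 8 * T) * (4 * Real.exp (-(L * (T / 2 - w)))) = 4 * (Real.exp (L / 8 * T + L / 8 * T) * Real.exp (-(L * (T / 2 - w)))) := by ring
    have e2 : 4 * Real.exp (L * w) * Real.exp (T * -(L / 4)) = 4 * (Real.exp (L * w) * Real.exp (T * -(L / 4))) := by ring
    rw [e1, e2, ← Real.exp_add, ← Real.exp_add]
    congr 2
    ring
  have := mul_le_mul_of_nonneg_right hfin hSg
  linarith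

end Pool.Agent.FS
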