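import Pool.Agent.helper52.FS.SpecP

/-!
# MP_07c750 (quantum unique ergodicity, weight 10), PROJECT FSQ (helper62): the uniform (frequency) version of THEOREM FS; pure part, rows `fq:XXX`

THEOREM FSQ. Let `M = Γ\ℍ` be a closed hyperbolic surface, `X = Γ\SL(2, ℝ)`. For every nonempty open `O ⊆ X` there is `ε = ε(Γ, O) > 0` such that for EVERY quantum limit (lift `μ`) `μ {x : the orbit of x visits O with upper frequency < ε} ≤ 1/2`; so for every `r > 0` there is `ε(r) > 0` such that at least half of the mass of every quantum limit sits on ergodic components which give mass `≥ ε(r)` to every ball of radius `r`.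
It contains THEOREM FS (`Pool/Agent/helper52/FS/SpecP.lean`, page /team-store/FS_page_helper52.md) and the theorem of Dyatlov and Jin (`μ(O) ≥ c(O) > 0`).

This file: the fractal uncertainty principle for sets which are porous at all but `ε T` of `T` scales, where the exceptional scales depend on the point (patterns): rows FITQ, CNTQ, FUQ on top of the rows of `SpecP` (LSM, MUL, CUT, PAR).

RULES. Row `fq:XXX` (problem MP_07c750_an): file `Pool/Agent/<seat>/FSQ/XXX.lean`, `import Pool.Agent.helper62.FSQ.SpecQ` (and what you need), `set_option autoImplicit false`, namespace `Pool.Agent.FS`, auxiliary lemmas prefixed `XXX_`, theorem `XXX_proof (h : YYY_stmt) .. : XXX_stmt` with the rows listed in `from` as hypotheses.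
No straight double quotes, no `convert`, `congr!`, `native_decide`. A false or doubtful statement: message to helper62 at once.
-/

open MeasureTheory Set

set_option autoImplicit false

namespace Pool.Agent.FS

noncomputable section

/-- the set `Y` has a gap of relative size `c` at the scale `1/M` everywhere -/
def GAP (c : ℝ) (M : ℕ) (Y : Set ℝ) : Prop := ∀ v : ℝ, ∃ x ∈ Icc v (v + 1 / (M : ℝ)), Disjoint (Ioo (x - c / M) (x + c / M)) Y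

/-- the frequencies `J` have a gap of relative size `c` at the scales between `M` and `M'` everywhere -/
def GAPJ (c : ℝ) (M M' : ℕ) (J : Set ℤ) : Prop := ∀ R : ℝ, (M : ℝ) ≤ R → R ≤ M' → ∀ ξ : ℝ, ∃ y ∈ Icc ξ (ξ + R), ∀ j ∈ J, c * R ≤ |Real.pi * j / 2 - y|

/-- **Row FITQ** (iteration over a set of good steps; medium; from LSM, MUL, CUT, PAR; the proof of FIT (`Pool/Agent/helper52/FS/SpecP.lean`, row FIT) with the steps `t ∈ TT` in increasing order, no multiplication at the other steps). `c' = c/4`: LSM for `c'`, `R2 = 1`: `K, R1`. `τ = 1/(20K)`, `B` from CUT, `H = ⌈32 B/c⌉ + 2`, `w` with `R1 ≤ H^w`.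
Induction over the steps: `F` = trigonometric sum with frequencies within `2 B H^(t-1)` (index) of `J` before the step `t` (`Σ_(s<t) B H^s ≤ 2 B H^(t-1)`), `‖F(v)‖ ≥ (1 - τ)^(number of steps) ‖f(v)‖` on `Y ∩ [0,1]`, `∫_0^4 ‖F‖² ≤ (1 - 1/(2K))^(number of steps) ∫_0^4 ‖f‖²`. Step `t`, `M = H^t`: the spectrum of `F` has the gap property with `c/4` at the scales
`M ≤ R ≤ R1 M`: `|πj'/2 - y| ≥ cR - (π/2) 2B H^(t-1) ≥ (c/4) R`; `∫ ‖φ F‖² ≤ ∫ ‖F‖² - (1 - τ²) ∫_E ‖F‖²`. `(1 - τ)^(-2) (1 - 1/(2K)) ≤ 1 - 1/(4K) = θ`. (Induction on `Finset` by its maximum, or over `t < T` with the filter `TT ∩ [0, t)`.) -/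
def FITQ_stmt : Prop := ∀ c : ℝ, 0 < c → c < 1 → ∃ (θ : ℝ) (H w : ℕ), 0 < θ ∧ θ < 1 ∧ 2 ≤ H ∧ ∀ (TT : Finset ℕ) (Y : Set ℝ) (J : Finset ℤ) (a : ℤ → ℂ), MeasurableSet Y →
  (∀ t ∈ TT, GAP c (H ^ t) Y) → (∀ t ∈ TT, GAPJ c (H ^ t) (H ^ (t + w)) (J : Set ℤ)) → ∫ v in Y ∩ Icc 0 1, ‖tp J a v‖ ^ 2 ≤ 4 * θ ^ TT.card * ∑ j ∈ J, ‖a j‖ ^ 2

/-- **Row CNTQ** (number of patterns; short; pure). `Σ_(A ⊆ S, #A ≤ k) 1 ≤ Σ_A x^(#A - k) = x^(-k) Σ_A x^(#A) = x^(-k) (1 + x)^(#S)` (`Finset.sum_pow_mul_eq_add_pow` or `Finset.prod_one_add`; `0 < x ≤ 1`). -/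
def CNTQ_stmt : Prop := ∀ (S : Finset ℕ) (x k : ℝ), 0 < x → x ≤ 1 → (((S.powerset.filter fun A : Finset ℕ => (A.card : ℝ) ≤ k).card : ℕ) : ℝ) * x ^ k ≤ (1 + x) ^ S.card

/-- **Row FUQ** (THE FRACTAL UNCERTAINTY PRINCIPLE WITH EXCEPTIONAL SCALES; medium; from FITQ, CNTQ, PAR). `θ, H, w` from FITQ (for `w = 0` take `w = 1`). Choose `x ∈ (0, 1]` with `(1 + x)² ≤ θ^(-1/8)`, then `ε ∈ (0, 1/(8(w + 1))]` with `x^(-2ε) ≤ θ^(-1/8)`, `ϑ = θ^(1/8)`, `C = 4 θ^(-(w + 1))`. `S = {t0, .., t0 + T - 1}`.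
For `A ⊆ S`, `#A ≤ εT` let `Y_A = {v ∈ Y : v ∈ Yg t for all t ∈ S - A}` (measurable; they cover `Y ∩ [0, 1]`); every `j ∈ J` belongs to the class of `B(j) = {t ∈ S : j ∉ Jg t}`, `J = ⨆_B J_B` (disjoint). `tp J a = Σ_B tp J_B a`; Cauchy–Schwarz: `∫_Y ‖tp J a‖² ≤ Σ_A ∫_(Y_A) ‖Σ_B tp J_B a‖² ≤ #{A} #{B} max_(A,B)`-type bound
`≤ #{A} #{B} Σ_B 4 θ^(#TT) Σ_(J_B) ‖a‖²` with `TT = {t ∈ S : t ∉ A, t + w ≤ t0 + T, t + i ∉ B for 0 ≤ i < w}`, `#TT ≥ T - εT - w εT - w ≥ T/2 - w`. `GAP` for `Y_A` at `t ∈ TT` since `Y_A ⊆ Yg t`; `GAPJ` between `H^t` and `H^(t+w)`: `R` lies between `H^(t+i)` and `H^(t+i+1)` for some `i < w` and `J_B ⊆ Jg (t + i)`.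
Total: `(1 + x)^(2T) x^(-2εT) 4 θ^(T/2 - w) ≤ 4 θ^(-w) θ^(T/4)`. -/
def FUQ_stmt : Prop := ∀ c : ℝ, 0 < c → c < 1 → ∃ (ε ϑ C : ℝ) (H : ℕ), 0 < ε ∧ 0 < ϑ ∧ ϑ < 1 ∧ 1 ≤ C ∧ 2 ≤ H ∧ ∀ (t0 T : ℕ) (Y : Set ℝ) (Yg : ℕ → Set ℝ) (J : Finset ℤ) (Jg : ℕ → Set ℤ) (a : ℤ → ℂ), MeasurableSet Y → (∀ t, MeasurableSet (Yg t)) →
  (∀ t : ℕ, t0 ≤ t → t < t0 + T → GAP c (H ^ t) (Yg t)) → (∀ t : ℕ, t0 ≤ t → t < t0 + T → GAPJ c (H ^ t) (H ^ (t + 1)) (Jg t ∩ (J : Set ℤ))) →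
  (∀ v ∈ Y, ∃ A : Finset ℕ, (A.card : ℝ) ≤ ε * T ∧ ∀ t : ℕ, t0 ≤ t → t < t0 + T → t ∉ A → v ∈ Yg t) → (∀ j ∈ J, ∃ A : Finset ℕ, (A.card : ℝ) ≤ ε * T ∧ ∀ t : ℕ, t0 ≤ t → t < t0 + T → t ∉ A → j ∈ Jg t) →
    ∫ v in Y ∩ Icc 0 1, ‖tp J a v‖ ^ 2 ≤ C * ϑ ^ T * ∑ j ∈ J, ‖a j‖ ^ 2

end

end Pool.Agent.FS
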